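import Pool.Agent.Work.MP_88b7aa_gt.D.P9_9_9.F0

/-! The class is done. -/

set_option autoImplicit false

namespace Pool.Agent.Work.MP_88b7aa_gt.D.P9_9_9

open Pool.Agent.Work.MP_88b7aa_gt.PQ
open Pool.Agent.Work.MP_88b7aa_gt.Kc

theorem g0 : CGood (KS (.ex 9) (.ex 9) (.ex 9)) H.k ⟨264499958550889, 0, 0, 0, 0, 8⟩ ⟨264499958550889, 0, 0, 0, 0, 8⟩ ⟨264499958550889, 0, 0, 0, 0, 8⟩ ⟨109828789764096, 0, 0, 0, 0, 0⟩ :=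
  mC_good H_ok M0.k LB.nil LC.nil

theorem g1 : CGood (KS (.ex 9) (.ex 9) (.ex 9)) H.k ⟨264499958550889, 0, 0, 0, 0, 8⟩ ⟨264499958550889, 0, 0, 0, 0, 8⟩ ⟨264499958550889, 0, 0, 0, 0, 8⟩ ⟨0, 0, 0, 0, 0, 0⟩ :=
  mC_good H_ok M1.k LB.nil (LC.cons g0 LC.nil)

theorem done : Done (KS (.ex 9) (.ex 9) (.ex 9)) := fin (by decide +kernel) g1

end Pool.Agent.Work.MP_88b7aa_gt.D.P9_9_9
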